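import Pool.Agent.N139.AS.Stm

/-!
# Project AS: spectral projections
-/

set_option autoImplicit false
set_option linter.unusedSectionVars false

namespace Pool.Agent.N2.AS

open Pool.Agent.N139.AS Matrix Finset

/-! ### the pairing -/

section pairing

variable {p : ℕ}

theorem trl_zero (a : Lam →₀ ZMod p) : trl p 0 a = a := by
  ext i
  rw [trl_apply]
  simp

theorem pr_mul {x y : NN p} (hx : x ∈ SA p) (ω : Lam → ZMod p) :
    pr p (x * y) ω = pr p x ω + pr p y ω := by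
  have hx' : x.l = 0 := hx
  show (x * y).a.sum _ = _
  rw [NN.mul_a, hx', trl_zero, Finsupp.sum_add_index']
  · rfl
  · intro; simp
  · intro _ _ _; ring

theorem pr_one (ω : Lam → ZMod p) : pr p 1 ω = 0 := by
  show (1 : NN p).a.sum _ = _
  rw [NN.one_a, Finsupp.sum_zero_index]

theorem pr_inv {x : NN p} (hx : x ∈ SA p) (ω : Lam → ZMod p) : pr p x⁻¹ ω = -pr p x ω := by
  have h := pr_mul (y := x⁻¹) hx ω
  rw [mul_inv_cancel, pr_one] at h
  exact (neg_eq_of_add_eq_zero_right h.symm).symm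

theorem pr_congr {a b : ℤ} {x : NN p} (hx : x ∈ WN p a b) {ω ω' : Lam → ZMod p}
    (h : ∀ y, InL a b y → ω y = ω' y) : pr p x ω = pr p x ω' := by
  refine Finset.sum_congr rfl fun y hy => ?_
  show x.a y * ω y = x.a y * ω' y
  rw [h y (hx.2 y (Finsupp.mem_support_iff.mp hy))]

theorem dl_SA (y : Lam) (c : ZMod p) : dl p y c ∈ SA p := rfl

theorem dl_WN {a b : ℤ} {y : Lam} (hy : InL a b y) (c : ZMod p) : dl p y c ∈ WN p a b := by
  refine ⟨InL.zero a b, fun z hz => ?_⟩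
  have h : y = z := by
    by_contra h
    apply hz
    show Finsupp.single y c z = 0
    rw [Finsupp.single_apply, if_neg h]
  exact h ▸ hy

theorem pr_dl (y : Lam) (c : ZMod p) (ω : Lam → ZMod p) : pr p (dl p y c) ω = c * ω y := by
  show (Finsupp.single y c).sum _ = _
  rw [Finsupp.sum_single_index]
  simp

theorem SA_comm {x y : NN p} (hx : x ∈ SA p) (hy : y ∈ SA p) : x * y = y * x := by
  have hx' : x.l = 0 := hx
  have hy' : y.l = 0 := hy
  ext i
  · rw [NN.mul_a, NN.mul_a, hx', hy', trl_zero, trl_zero, add_comm]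
  · rw [NN.mul_l, NN.mul_l, add_comm]

/-- conjugation by elements of `SL` -/
theorem conj_SA {x y : NN p} (hx : x ∈ SL p) (hy : y ∈ SA p) :
    x * y * x⁻¹ = ⟨trl p x.l y.a, 0⟩ := by
  have hx' : x.a = 0 := hx
  have hy' : y.l = 0 := hy
  ext i
  · rw [NN.mul_a, NN.mul_a, NN.inv_a, hx']
    simp
  · rw [NN.mul_l, NN.mul_l, hy', NN.inv_l]
    simp

theorem conj_mem {x y : NN p} (hx : x ∈ SL p) (hy : y ∈ SA p) : x * y * x⁻¹ ∈ SA p := by
  rw [conj_SA hx hy]
  rfl

theorem pr_conj {x y : NN p} (hx : x ∈ SL p) (hy : y ∈ SA p) (ω : Lam → ZMod p) :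
    pr p (x * y * x⁻¹) (fun z => ω (-x.l + z)) = pr p y ω := by
  rw [conj_SA hx hy]
  show (Finsupp.equivMapDomain (Equiv.addLeft x.l) y.a).sum _ = y.a.sum _
  rw [Finsupp.equivMapDomain_eq_mapDomain, Finsupp.sum_mapDomain_index]
  · simp
  · intro; simp
  · intro _ _ _; ring

theorem pr_sh (x : NN p) (ω : Lam → ZMod p) :
    pr p (shN p x) (fun z => ω (shL.symm z)) = pr p x ω := by
  show (Finsupp.equivMapDomain shL.toEquiv x.a).sum _ = x.a.sum _
  rw [Finsupp.equivMapDomain_eq_mapDomain, Finsupp.sum_mapDomain_index]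
  · simp
  · intro; simp
  · intro _ _ _; ring

end pairing

/-! ### the sum over a finite set -/

/-- the window of `SA` -/
def TT (p : ℕ) (a b : ℤ) : Set (NN p) := {x : NN p | x ∈ SA p ∧ x ∈ WN p a b}

theorem TT_fin {p : ℕ} (h : ∀ a b : ℤ, Finite (WN p a b)) (a b : ℤ) : (TT p a b).Finite := by
  have := h a b
  exact ((WN p a b : Set (NN p)).toFinite).subset fun x hx => hx.2

theorem EE_eq {p : ℕ} [NeZero p] {d : ℕ} (α : NN p → UU d) (a b : ℤ) (ω : Lam → ZMod p)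
    (F : Finset (NN p)) (hF : ∀ x, x ∈ F ↔ x ∈ TT p a b) :
    EE p α a b ω = ((F.card : ℂ)⁻¹) •
      ∑ x ∈ F, (ZMod.stdAddChar (-(pr p x ω)) : ℂ) • (α x).1 := by
  have h1 : (TT p a b) = (F : Set (NN p)) := by
    ext x
    rw [← hF]
    rfl
  have h2 : Nat.card (TT p a b) = F.card := by
    rw [h1]
    simp
  show ((Nat.card (TT p a b) : ℂ)⁻¹) • (∑ᶠ x ∈ TT p a b, _) = _
  rw [h2, h1, finsum_mem_coe_finset]

theorem sac_neg {p : ℕ} [NeZero p] (z : ZMod p) :
    star (ZMod.stdAddChar z : ℂ) = ZMod.stdAddChar (-z) := by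
  rw [AddChar.map_neg_eq_conj]
  rfl

section main

variable {p : ℕ} [NeZero p] {d R : ℕ} {α : NN p → UU d}

theorem a_one (hm : ∀ n ∈ WN p (-R) R, ∀ m ∈ WN p (-R) R, α (n * m) = α n * α m) :
    α 1 = 1 := by
  have h := hm 1 (one_mem _) 1 (one_mem _)
  rw [mul_one] at h
  exact (mul_eq_left.mp h.symm)

theorem a_inv (hm : ∀ n ∈ WN p (-R) R, ∀ m ∈ WN p (-R) R, α (n * m) = α n * α m)
    {n : NN p} (hn : n ∈ WN p (-R) R) : α n⁻¹ = (α n)⁻¹ := by
  have h := hm n hn n⁻¹ (inv_mem hn)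
  rw [mul_inv_cancel, a_one hm] at h
  exact (inv_eq_of_mul_eq_one_right h.symm).symm

theorem W_mono {a b a' b' : ℤ} (h1 : a' ≤ a) (h2 : b ≤ b') : WN p a b ≤ WN p a' b' := by
  intro x hx
  exact ⟨fun i hi => ⟨h1.trans (hx.1 i hi).1, (hx.1 i hi).2.trans_le h2⟩,
    fun y hy i hi => ⟨h1.trans (hx.2 y hy i hi).1, (hx.2 y hy i hi).2.trans_le h2⟩⟩

/-- `α(x) EE = χ(x) EE` -/
theorem mul_EE (hm : ∀ n ∈ WN p (-R) R, ∀ m ∈ WN p (-R) R, α (n * m) = α n * α m)
    {a b : ℤ} (ha : -R ≤ a) (hb : b ≤ R) {F : Finset (NN p)} (hF : ∀ x, x ∈ F ↔ x ∈ TT p a b)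
    (ω : Lam → ZMod p) {x : NN p} (hx : x ∈ TT p a b) :
    (α x).1 * EE p α a b ω = (ZMod.stdAddChar (pr p x ω) : ℂ) • EE p α a b ω := by
  have hW : WN p a b ≤ WN p (-R) R := W_mono ha hb
  rw [EE_eq α a b ω F hF, mul_smul_comm, smul_comm (ZMod.stdAddChar (pr p x ω) : ℂ)]
  congr 1
  rw [Finset.mul_sum, Finset.smul_sum]
  refine Finset.sum_bij' (fun y _ => x * y) (fun y _ => x⁻¹ * y) ?_ ?_ ?_ ?_ ?_
  · intro y hy
    rw [hF] at hy ⊢
    exact ⟨mul_mem hx.1 hy.1, mul_mem hx.2 hy.2⟩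
  · intro y hy
    rw [hF] at hy ⊢
    exact ⟨mul_mem (inv_mem hx.1) hy.1, mul_mem (inv_mem hx.2) hy.2⟩
  · intro y _
    simp
  · intro y _
    simp
  · intro y hy
    rw [hF] at hy
    rw [hm x (hW hx.2) y (hW hy.2), pr_mul hx.1, smul_smul, ← AddChar.map_add_eq_mul,
      mul_smul_comm]
    congr 2
    · congr 1
      ring

theorem comm_EE (hm : ∀ n ∈ WN p (-R) R, ∀ m ∈ WN p (-R) R, α (n * m) = α n * α m)
    {a b : ℤ} (ha : -R ≤ a) (hb : b ≤ R) {F : Finset (NN p)} (hF : ∀ x, x ∈ F ↔ x ∈ TT p a b)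
    (ω : Lam → ZMod p) {x : NN p} (hx : x ∈ SA p) (hx2 : x ∈ WN p (-R) R) :
    Commute (α x).1 (EE p α a b ω) := by
  rw [EE_eq α a b ω F hF]
  refine Commute.smul_right ?_ _
  refine Commute.sum_right _ _ _ fun y hy => ?_
  refine Commute.smul_right ?_ _
  rw [hF] at hy
  have hW : WN p a b ≤ WN p (-R) R := W_mono ha hb
  have h1 := hm x hx2 y (hW hy.2)
  have h2 := hm y (hW hy.2) x hx2
  rw [SA_comm hx hy.1, h2] at h1
  exact congrArg Subtype.val h1.symm

theorem EE_congr {a b : ℤ} {F : Finset (NN p)} (hF : ∀ x, x ∈ F ↔ x ∈ TT p a b)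
    {ω ω' : Lam → ZMod p} (h : ∀ y, InL a b y → ω y = ω' y) :
    EE p α a b ω = EE p α a b ω' := by
  rw [EE_eq α a b ω F hF, EE_eq α a b ω' F hF]
  congr 1
  refine Finset.sum_congr rfl fun x hx => ?_
  rw [hF] at hx
  rw [pr_congr hx.2 h]

theorem F_card {a b : ℤ} {F : Finset (NN p)} (hF : ∀ x, x ∈ F ↔ x ∈ TT p a b) :
    (F.card : ℂ) ≠ 0 := by
  have h : (1 : NN p) ∈ F := (hF 1).2 ⟨one_mem _, one_mem _⟩
  exact_mod_cast (Finset.card_pos.mpr ⟨1, h⟩).ne'

/-- `EE' EE = EE` if `α(x) EE = χ'(x) EE` on the window of `EE'` -/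
theorem EE_mul {a b : ℤ} {F : Finset (NN p)} (hF : ∀ x, x ∈ F ↔ x ∈ TT p a b)
    (ω : Lam → ZMod p) (M : Mt d)
    (h : ∀ x ∈ TT p a b, (α x).1 * M = (ZMod.stdAddChar (pr p x ω) : ℂ) • M) :
    EE p α a b ω * M = M := by
  rw [EE_eq α a b ω F hF, smul_mul_assoc, Finset.sum_mul]
  have h1 : ∀ x ∈ F, ((ZMod.stdAddChar (-(pr p x ω)) : ℂ) • (α x).1) * M = M := by
    intro x hx
    rw [smul_mul_assoc, h x ((hF x).1 hx), smul_smul, ← AddChar.map_add_eq_mul, neg_add_cancel,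
      AddChar.map_zero_eq_one, one_smul]
  rw [Finset.sum_congr rfl h1, Finset.sum_const, ← Nat.cast_smul_eq_nsmul ℂ, smul_smul,
    inv_mul_cancel₀ (F_card hF), one_smul]

theorem EE_herm (hm : ∀ n ∈ WN p (-R) R, ∀ m ∈ WN p (-R) R, α (n * m) = α n * α m)
    {a b : ℤ} (ha : -R ≤ a) (hb : b ≤ R) {F : Finset (NN p)} (hF : ∀ x, x ∈ F ↔ x ∈ TT p a b)
    (ω : Lam → ZMod p) : (EE p α a b ω).IsHermitian := by
  have hW : WN p a b ≤ WN p (-R) R := W_mono ha hb
  show (EE p α a b ω)ᴴ = EE p α a b ω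
  rw [EE_eq α a b ω F hF, conjTranspose_smul, conjTranspose_sum]
  congr 1
  · simp
  · refine Finset.sum_bij' (fun y _ => y⁻¹) (fun y _ => y⁻¹) ?_ ?_ ?_ ?_ ?_
    · intro y hy
      rw [hF] at hy ⊢
      exact ⟨inv_mem hy.1, inv_mem hy.2⟩
    · intro y hy
      rw [hF] at hy ⊢
      exact ⟨inv_mem hy.1, inv_mem hy.2⟩
    · intro y _
      simp
    · intro y _
      simp
    · intro y hy
      rw [hF] at hy
      rw [conjTranspose_smul, sac_neg, pr_inv hy.1, a_inv hm (hW hy.2)]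
      rfl

theorem EE_orth (hm : ∀ n ∈ WN p (-R) R, ∀ m ∈ WN p (-R) R, α (n * m) = α n * α m)
    {a b : ℤ} (ha : -R ≤ a) (hb : b ≤ R) {F : Finset (NN p)} (hF : ∀ x, x ∈ F ↔ x ∈ TT p a b)
    (ω : Lam → ZMod p) {y : Lam} (hy : InL a b y) (c : ZMod p) (M : Mt d)
    (hM : (α (dl p y 1)).1 * M = (ZMod.stdAddChar c : ℂ) • M) (hc : ω y ≠ c) :
    EE p α a b ω * M = 0 := by
  have hW : WN p a b ≤ WN p (-R) R := W_mono ha hb
  have h1 := mul_EE hm ha hb hF ω (x := dl p y 1) ⟨dl_SA y 1, dl_WN hy 1⟩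
  have h2 : Commute _ _ :=
    comm_EE hm ha hb hF ω (x := dl p y 1) (dl_SA y 1) (hW (dl_WN hy 1))
  rw [pr_dl, one_mul] at h1
  have h3 : (ZMod.stdAddChar (ω y) : ℂ) • (EE p α a b ω * M) =
      (ZMod.stdAddChar c : ℂ) • (EE p α a b ω * M) := by
    rw [← smul_mul_assoc, ← h1, h2.eq, mul_assoc, hM, mul_smul_comm]
  rw [← sub_eq_zero, ← sub_smul, smul_eq_zero] at h3
  rcases h3 with h3 | h3
  · exfalso
    apply hc
    exact ZMod.injective_stdAddChar (sub_eq_zero.mp h3)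
  · exact h3

/-- conjugation by elements of `SL` -/
theorem SL_EE (hm : ∀ n ∈ WN p (-R) R, ∀ m ∈ WN p (-R) R, α (n * m) = α n * α m)
    {a b : ℤ} (ha : -R ≤ a) (hb : b ≤ R) {F : Finset (NN p)} (hF : ∀ x, x ∈ F ↔ x ∈ TT p a b)
    (ω : Lam → ZMod p) {x : NN p} (hx : x ∈ SL p) (hx2 : x ∈ WN p a b) :
    (α x).1 * EE p α a b ω = EE p α a b (fun y => ω (-x.l + y)) * (α x).1 := by
  have hW : WN p a b ≤ WN p (-R) R := W_mono ha hb
  rw [EE_eq α a b ω F hF, EE_eq α a b _ F hF, mul_smul_comm, smul_mul_assoc]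
  congr 1
  rw [Finset.mul_sum, Finset.sum_mul]
  refine Finset.sum_bij' (fun y _ => x * y * x⁻¹) (fun y _ => x⁻¹ * y * x) ?_ ?_ ?_ ?_ ?_
  · intro y hy
    rw [hF] at hy ⊢
    exact ⟨conj_mem hx hy.1, mul_mem (mul_mem hx2 hy.2) (inv_mem hx2)⟩
  · intro y hy
    rw [hF] at hy ⊢
    have h := conj_mem (inv_mem hx) hy.1
    rw [inv_inv] at h
    exact ⟨h, mul_mem (mul_mem (inv_mem hx2) hy.2) hx2⟩
  · intro y _
    group
  · intro y _
    group
  · intro y hy
    rw [hF] at hy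
    rw [pr_conj hx hy.1, mul_smul_comm, smul_mul_assoc]
    congr 1
    have h1 := hm x (hW hx2) y (hW hy.2)
    have h2 := hm (x * y * x⁻¹) (hW (mul_mem (mul_mem hx2 hy.2) (inv_mem hx2))) x (hW hx2)
    rw [inv_mul_cancel_right, h1] at h2
    exact congrArg Subtype.val h2

/-- the shift -/
theorem sh_EE {t : UU d}
    (ht : ∀ n ∈ WN p (-R) (R - 1), t * α n = α (shN p n) * t)
    (hs : ∀ (a b : ℤ) (n : NN p), shN p n ∈ WN p (a + 1) (b + 1) ↔ n ∈ WN p a b)
    {a b : ℤ} (ha : -R ≤ a) (hb : b < R) {F : Finset (NN p)} (hF : ∀ x, x ∈ F ↔ x ∈ TT p a b)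
    {F' : Finset (NN p)} (hF' : ∀ x, x ∈ F' ↔ x ∈ TT p (a + 1) (b + 1))
    (ω : Lam → ZMod p) :
    t.1 * EE p α a b ω = EE p α (a + 1) (b + 1) (fun y => ω (shL.symm y)) * t.1 := by
  have hW : WN p a b ≤ WN p (-R) (R - 1) := W_mono ha (by omega)
  have hSA : ∀ x : NN p, shN p x ∈ SA p ↔ x ∈ SA p := by
    intro x
    show shL x.l = 0 ↔ x.l = 0
    simp
  have hmem : ∀ x, x ∈ F ↔ shN p x ∈ F' := by
    intro x
    rw [hF, hF']
    show (x ∈ SA p ∧ x ∈ WN p a b) ↔ (shN p x ∈ SA p ∧ shN p x ∈ WN p (a + 1) (b + 1))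
    rw [hSA, hs]
  have hcard : F.card = F'.card := by
    refine Finset.card_bij' (fun x _ => shN p x) (fun x _ => (shN p).symm x) ?_ ?_ ?_ ?_
    · intro x hx
      exact (hmem x).1 hx
    · intro x hx
      rw [hmem]
      simpa using hx
    · intro x _
      simp
    · intro x _
      simp
  rw [EE_eq α a b ω F hF, EE_eq α (a + 1) (b + 1) _ F' hF', mul_smul_comm, smul_mul_assoc, hcard]
  congr 1
  rw [Finset.mul_sum, Finset.sum_mul]
  refine Finset.sum_bij' (fun x _ => shN p x) (fun x _ => (shN p).symm x) ?_ ?_ ?_ ?_ ?_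
  · intro x hx
    exact (hmem x).1 hx
  · intro x hx
    rw [hmem]
    simpa using hx
  · intro x _
    simp
  · intro x _
    simp
  · intro x hx
    rw [hF] at hx
    rw [pr_sh, mul_smul_comm, smul_mul_assoc]
    congr 1
    exact congrArg Subtype.val (ht x (hW hx.2))

end main

/-! ### completeness -/

section complete

variable {p : ℕ} [NeZero p] {d R : ℕ} {α : NN p → UU d}

theorem exo_in {a b : ℤ} (ω : {y : Lam // InL a b y} → ZMod p) {y : Lam} (h : InL a b y) :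
    exo p a b ω y = ω ⟨y, h⟩ := by
  unfold exo
  simp [h]

/-- the elements of the window are functions -/
theorem card_T {a b : ℤ} [Fintype {y : Lam // InL a b y}] {F : Finset (NN p)}
    (hF : ∀ x, x ∈ F ↔ x ∈ TT p a b) :
    F.card = Nat.card ({y : Lam // InL a b y} → ZMod p) := by
  classical
  have h1 : F.card = Nat.card (TT p a b) := by
    have : (TT p a b) = (F : Set (NN p)) := by
      ext x
      rw [← hF]
      rfl
    rw [this]
    simp
  rw [h1]
  let f : TT p a b → ({y : Lam // InL a b y} → ZMod p) := fun x y => x.1.a y.1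
  refine Nat.card_eq_of_bijective f ⟨?_, ?_⟩
  · rintro ⟨x, hx⟩ ⟨y, hy⟩ hxy
    apply Subtype.ext
    show x = y
    have hxl : x.l = 0 := hx.1
    have hyl : y.l = 0 := hy.1
    have h2 : x.a = y.a := by
      ext z
      by_cases hz : InL a b z
      · exact congrFun hxy ⟨z, hz⟩
      · have h3 : x.a z = 0 := by
          by_contra h
          exact hz (hx.2.2 z h)
        have h4 : y.a z = 0 := by
          by_contra h
          exact hz (hy.2.2 z h)
        rw [h3, h4]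
    cases x; cases y
    simp only at h2 hxl hyl
    subst h2 hxl
    rw [hyl]
  · intro g
    have hfs : ∀ z, exo p a b g z ≠ 0 →
        z ∈ ((Finset.univ : Finset {y : Lam // InL a b y}).map (Function.Embedding.subtype _)) := by
      intro z hz
      have hz' : InL a b z := by
        by_contra h
        apply hz
        unfold exo
        simp [h]
      simp [hz']
    refine ⟨⟨⟨Finsupp.onFinset _ (exo p a b g) hfs, 0⟩, rfl, InL.zero a b, ?_⟩, ?_⟩
    · intro y hy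
      by_contra h
      apply hy
      show exo p a b g y = 0
      unfold exo
      simp [h]
    · funext y
      show exo p a b g y.1 = g y
      rw [exo_in g y.2]

theorem pr_exo_add {a b : ℤ} (x : NN p) (ω ω' : {y : Lam // InL a b y} → ZMod p) :
    pr p x (exo p a b (ω + ω')) = pr p x (exo p a b ω) + pr p x (exo p a b ω') := by
  unfold pr Finsupp.sum
  rw [← Finset.sum_add_distrib]
  refine Finset.sum_congr rfl fun y _ => ?_
  have : exo p a b (ω + ω') y = exo p a b ω y + exo p a b ω' y := by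
    unfold exo
    by_cases h : InL a b y <;> simp [h]
  show x.a y * exo p a b (ω + ω') y = x.a y * exo p a b ω y + x.a y * exo p a b ω' y
  rw [this]
  ring

theorem sum_char {a b : ℤ} [Fintype ({y : Lam // InL a b y} → ZMod p)] {x : NN p}
    (hx : x ∈ TT p a b) (hx1 : x ≠ 1) :
    ∑ ω : {y : Lam // InL a b y} → ZMod p,
      (ZMod.stdAddChar (-(pr p x (exo p a b ω))) : ℂ) = 0 := by
  classical
  have hxl : x.l = 0 := hx.1
  obtain ⟨y, hy⟩ : ∃ y, x.a y ≠ 0 := by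
    by_contra h
    push Not at h
    apply hx1
    cases x
    simp only at hxl h
    subst hxl
    have : (1 : NN p) = ⟨0, 0⟩ := rfl
    rw [this]
    congr 1
    ext y
    exact h y
  have hyI : InL a b y := hx.2.2 y hy
  set e : {y : Lam // InL a b y} → ZMod p := Pi.single ⟨y, hyI⟩ 1 with he
  have h1 : pr p x (exo p a b e) = x.a y := by
    unfold pr Finsupp.sum
    rw [Finset.sum_eq_single y]
    · show x.a y * exo p a b e y = x.a y
      rw [exo_in e hyI, he]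
      simp
    · intro z _ hz
      have : exo p a b e z = 0 := by
        by_cases h : InL a b z
        · rw [exo_in e h, he]
          rw [Pi.single_apply, if_neg]
          intro h'
          exact hz (congrArg Subtype.val h')
        · unfold exo
          simp [h]
      show x.a z * exo p a b e z = 0
      rw [this, mul_zero]
    · intro h
      exact absurd (Finsupp.mem_support_iff.mpr hy) h
  have h2 : ∑ ω : {y : Lam // InL a b y} → ZMod p,
      (ZMod.stdAddChar (-(pr p x (exo p a b ω))) : ℂ) =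
      (ZMod.stdAddChar (-(x.a y)) : ℂ) * ∑ ω : {y : Lam // InL a b y} → ZMod p,
      (ZMod.stdAddChar (-(pr p x (exo p a b ω))) : ℂ) := by
    conv_lhs => rw [← Equiv.sum_comp (Equiv.addRight e)]
    rw [Finset.mul_sum]
    refine Finset.sum_congr rfl fun ω _ => ?_
    rw [Equiv.coe_addRight, pr_exo_add, h1, ← AddChar.map_add_eq_mul]
    congr 1
    ring
  have h3 : (ZMod.stdAddChar (-(x.a y)) : ℂ) ≠ 1 := by
    intro h
    rw [← AddChar.map_zero_eq_one (ZMod.stdAddChar (N := p))] at h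
    have h4 := ZMod.injective_stdAddChar h
    exact hy (neg_eq_zero.mp h4)
  have h5 : (1 - (ZMod.stdAddChar (-(x.a y)) : ℂ)) * ∑ ω : {y : Lam // InL a b y} → ZMod p,
      (ZMod.stdAddChar (-(pr p x (exo p a b ω))) : ℂ) = 0 := by
    rw [sub_mul, one_mul, ← h2, sub_self]
  rcases mul_eq_zero.mp h5 with h | h
  · exact absurd (sub_eq_zero.mp h).symm h3
  · exact h

theorem EE_sum (hm : ∀ n ∈ WN p (-R) R, ∀ m ∈ WN p (-R) R, α (n * m) = α n * α m)
    {a b : ℤ} [Fintype {y : Lam // InL a b y}] [Fintype ({y : Lam // InL a b y} → ZMod p)]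
    {F : Finset (NN p)}
    (hF : ∀ x, x ∈ F ↔ x ∈ TT p a b) :
    ∑ ω : {y : Lam // InL a b y} → ZMod p, EE p α a b (exo p a b ω) = 1 := by
  have h1 : ∀ ω : {y : Lam // InL a b y} → ZMod p, EE p α a b (exo p a b ω) =
      ((F.card : ℂ)⁻¹) •
      ∑ x ∈ F, (ZMod.stdAddChar (-(pr p x (exo p a b ω))) : ℂ) • (α x).1 := fun ω =>
    EE_eq α a b _ F hF
  rw [Finset.sum_congr rfl fun ω _ => h1 ω, ← Finset.smul_sum, Finset.sum_comm]
  have h2 : ∀ x ∈ F, x ≠ 1 → ∑ ω : {y : Lam // InL a b y} → ZMod p,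
      (ZMod.stdAddChar (-(pr p x (exo p a b ω))) : ℂ) • (α x).1 = 0 := by
    intro x hx hx1
    rw [← Finset.sum_smul, sum_char ((hF x).1 hx) hx1, zero_smul]
  have h3 : (1 : NN p) ∈ F := (hF 1).2 ⟨one_mem _, one_mem _⟩
  rw [Finset.sum_eq_single_of_mem 1 h3 h2, ← Finset.sum_smul, a_one hm]
  have h4 : ∀ ω : {y : Lam // InL a b y} → ZMod p,
      (ZMod.stdAddChar (-(pr p 1 (exo p a b ω))) : ℂ) = 1 := by
    intro ω
    rw [pr_one, neg_zero, AddChar.map_zero_eq_one]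
  rw [Finset.sum_congr rfl fun ω _ => h4 ω, Finset.sum_const, card_T hF, Nat.card_eq_fintype_card,
    Finset.card_univ, nsmul_eq_mul, mul_one, smul_smul, inv_mul_cancel₀, one_smul]
  · rfl
  · rw [← Nat.card_eq_fintype_card, ← card_T hF]
    exact F_card hF

end complete

theorem t_SPA (hO : S_OK) : S_SPA := by
  intro p _ R d α t hA a b ha hb
  have hOK := hO p
  have hfin : ∀ a b : ℤ, Finite (WN p a b) := hOK.fin
  have hm : ∀ n ∈ WN p (-R) R, ∀ m ∈ WN p (-R) R, α (n * m) = α n * α m := hA.mul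
  have ht : ∀ n ∈ WN p (-R) (R - 1), t * α n = α (shN p n) * t := hA.rel
  have hs : ∀ (a b : ℤ) (n : NN p), shN p n ∈ WN p (a + 1) (b + 1) ↔ n ∈ WN p a b := hOK.shift
  have hF : ∀ (a b : ℤ) (x : NN p), x ∈ (TT_fin hfin a b).toFinset ↔ x ∈ TT p a b :=
    fun a b x => Set.Finite.mem_toFinset _
  have hW : WN p a b ≤ WN p (-R) R := W_mono ha hb
  have hme : ∀ ω, ∀ x ∈ TT p a b, (α x).1 * EE p α a b ω =
      (ZMod.stdAddChar (pr p x ω) : ℂ) • EE p α a b ω := fun ω x hx =>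
    mul_EE hm ha hb (hF a b) ω hx
  refine ⟨?_, ?_, ?_, ?_, ?_, ?_, ?_, ?_⟩
  · intro ω
    exact ⟨EE_herm hm ha hb (hF a b) ω, EE_mul (hF a b) ω _ (hme ω)⟩
  · intro ω ω' h
    exact EE_congr (hF a b) h
  · rintro ω ω' ⟨y, hy, hne⟩
    refine EE_orth hm ha hb (hF a b) ω hy (ω' y) _ ?_ hne
    rw [hme ω' _ ⟨dl_SA y 1, dl_WN hy 1⟩, pr_dl, one_mul]
  · intro ω x hx hx2
    exact hme ω x ⟨hx, hx2⟩
  · intro ω x hx hx2
    exact comm_EE hm ha hb (hF a b) ω hx hx2
  · intro ω x hx hx2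
    exact SL_EE hm ha hb (hF a b) ω hx hx2
  · intro ω hb'
    exact sh_EE ht hs ha hb' (hF a b) (hF (a + 1) (b + 1)) ω
  · intro _
    classical
    have hone : (∑ ω : {y : Lam // InL a b y} → ZMod p, EE p α a b (exo p a b ω)) = 1 :=
      EE_sum hm (hF a b)
    refine ⟨?_, ?_⟩
    · convert hone
    · intro a' b' ω' ha' hb'
      have hWW : WN p a' b' ≤ WN p a b := W_mono ha' hb'
      have h1 : EE p α a' b' ω' = ∑ ω : {y : Lam // InL a b y} → ZMod p,
          EE p α a' b' ω' * EE p α a b (exo p a b ω) := by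
        rw [← Finset.mul_sum, hone, mul_one]
      rw [h1]
      have h2 : ∀ ω : {y : Lam // InL a b y} → ZMod p,
          EE p α a' b' ω' * EE p α a b (exo p a b ω) =
          if ∀ y, InL a' b' y → exo p a b ω y = ω' y then EE p α a b (exo p a b ω) else 0 := by
        intro ω
        split_ifs with h
        · rw [EE_congr (hF a' b') (ω := ω') (ω' := exo p a b ω) fun y hy => (h y hy).symm]
          exact EE_mul (hF a' b') _ _ fun x hx => hme _ x ⟨hx.1, hWW hx.2⟩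
        · push Not at h
          obtain ⟨y, hy, hne⟩ := h
          refine EE_orth hm (ha.trans ha') (hb'.trans hb) (hF a' b') ω' hy (exo p a b ω y) _ ?_
            (Ne.symm hne)
          rw [hme _ _ ⟨dl_SA y 1, hWW (dl_WN hy 1)⟩, pr_dl, one_mul]
      convert Finset.sum_congr rfl fun ω _ => h2 ω

end Pool.Agent.N2.AS

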